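import Pool.Agent.H81.GW.SU

/-!
# Perfect 3-spanning sets, module SB: the pairs with sum in a subgroup
-/

set_option autoImplicit false

open Finset Pool.Agent.H23.GW
open scoped Classical

namespace Pool.Agent.H81.GW

noncomputable section

/-- (SB) the pairs with sum in a subgroup. -/
theorem sb (hDI : T_DI) : T_SB := by
  intro G _ _ T m hT hm K
  letI : Fintype (G ⧸ K) := Fintype.ofFinite _
  set π : G →+ G ⧸ K := QuotientAddGroup.mk' K with hπ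
  have key : ((∑ ψ : AddChar (G ⧸ K) ℂ, ‖V T (ψ.compAddMonoidHom π)‖ ^ 2 : ℝ) : ℂ) =
      (((Fintype.card (G ⧸ K) : ℝ) * ∑ h with h ∈ K, (r2 T h : ℝ) : ℝ) : ℂ) := by
    rw [Complex.ofReal_sum]
    have h1 : ∀ ψ : AddChar (G ⧸ K) ℂ, ((‖V T (ψ.compAddMonoidHom π)‖ ^ 2 : ℝ) : ℂ) =
        ∑ g, (r2 T g : ℂ) * ψ (π g) := fun ψ => by
      rw [norm_sq_eq (V_im T hT.neg_mem _), V_sq]
      rfl
    simp_rw [h1]
    rw [sum_comm]
    simp_rw [← mul_sum, AddChar.sum_apply_eq_ite]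
    push_cast
    rw [mul_sum, sum_filter]
    apply sum_congr rfl
    intro g _
    have : π g = 0 ↔ g ∈ K := QuotientAddGroup.eq_zero_iff g
    by_cases hg : g ∈ K
    · rw [if_pos (this.2 hg), if_pos hg, mul_comm]
    · rw [if_neg (fun h => hg (this.1 h)), if_neg hg, mul_zero]
  have key2 : ∑ ψ : AddChar (G ⧸ K) ℂ, ‖V T (ψ.compAddMonoidHom π)‖ ^ 2 =
      (Fintype.card (G ⧸ K) : ℝ) * ∑ h with h ∈ K, (r2 T h : ℝ) := by exact_mod_cast key
  have hm0 : (0 : ℝ) ≤ m := Nat.cast_nonneg m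
  have h0 : ‖V T ((0 : AddChar (G ⧸ K) ℂ).compAddMonoidHom π)‖ ^ 2 = (2 * m + 1) ^ 2 := by
    have : V T ((0 : AddChar (G ⧸ K) ℂ).compAddMonoidHom π) = ((2 * m + 1 : ℝ) : ℂ) := by
      unfold V
      have : ∀ x ∈ T, ((0 : AddChar (G ⧸ K) ℂ).compAddMonoidHom π) x = 1 := fun x _ => rfl
      rw [sum_congr rfl this, sum_const, hT.card]
      push_cast
      simp
    rw [this, Complex.norm_real, Real.norm_eq_abs, sq_abs]
  have hne : ∀ ψ : AddChar (G ⧸ K) ℂ, ψ ≠ 0 → ‖V T (ψ.compAddMonoidHom π)‖ ^ 2 ≤ 9 * m := by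
    intro ψ hψ
    have hne0 : ψ.compAddMonoidHom π ≠ 0 := by
      intro h
      apply hψ
      ext q
      obtain ⟨g, rfl⟩ := QuotientAddGroup.mk'_surjective K q
      have := DFunLike.congr_fun h g
      exact this
    have h1 := (hDI G T m hT hm _ hne0).1
    calc ‖V T (ψ.compAddMonoidHom π)‖ ^ 2 ≤ (3 * √m) ^ 2 := by gcongr
      _ = (9 * m : ℝ) := by rw [mul_pow, Real.sq_sqrt hm0]; norm_num
  have hle : ∑ ψ : AddChar (G ⧸ K) ℂ, ‖V T (ψ.compAddMonoidHom π)‖ ^ 2 ≤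
      (2 * m + 1) ^ 2 + Fintype.card (G ⧸ K) * (9 * m) := by
    rw [← add_sum_erase _ _ (mem_univ (0 : AddChar (G ⧸ K) ℂ)), h0]
    gcongr
    calc ∑ ψ ∈ univ.erase (0 : AddChar (G ⧸ K) ℂ), ‖V T (ψ.compAddMonoidHom π)‖ ^ 2
        ≤ ∑ ψ ∈ univ.erase (0 : AddChar (G ⧸ K) ℂ), (9 * m : ℝ) :=
          sum_le_sum fun ψ hψ => hne ψ (ne_of_mem_erase hψ)
      _ ≤ ∑ ψ : AddChar (G ⧸ K) ℂ, (9 * m : ℝ) :=
          sum_le_sum_of_subset_of_nonneg (erase_subset _ _) fun _ _ _ => by positivity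
      _ = Fintype.card (G ⧸ K) * (9 * m) := by
          rw [sum_const, card_univ, AddChar.card_eq, nsmul_eq_mul]
  rw [key2] at hle
  have hQ : (0 : ℝ) < Fintype.card (G ⧸ K) := by exact_mod_cast Fintype.card_pos
  have hGK : (Fintype.card G : ℝ) = Fintype.card (G ⧸ K) * Nat.card K := by
    have := AddSubgroup.card_eq_card_quotient_mul_card_addSubgroup K
    rw [Nat.card_eq_fintype_card, Nat.card_eq_fintype_card (α := G ⧸ K)] at this
    exact_mod_cast this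
  have hK : (0 : ℝ) < Nat.card K := by exact_mod_cast Nat.card_pos
  have e : (2 * m + 1 : ℝ) ^ 2 * Nat.card K / Fintype.card G = (2 * m + 1) ^ 2 / Fintype.card (G ⧸ K) := by
    rw [hGK]
    field_simp
  rw [e]
  have : ∑ h with h ∈ K, (r2 T h : ℝ) ≤
      ((2 * m + 1) ^ 2 + Fintype.card (G ⧸ K) * (9 * m)) / Fintype.card (G ⧸ K) := by
    rw [le_div_iff₀ hQ, mul_comm]
    exact hle
  refine this.trans (le_of_eq ?_)
  field_simp

end

end Pool.Agent.H81.GW
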