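import Pool.Agent.H23.GW.Targets

/-!
# Perfect 3-spanning sets, modules SU and SB: moments of the character sums
-/

set_option autoImplicit false

open Finset Pool.Agent.H23.GW
open scoped Classical

namespace Pool.Agent.H81.GW

noncomputable section

variable {G : Type} [AddCommGroup G] [Fintype G]

lemma V_sq (T : Finset G) (χ : AddChar G ℂ) : V T χ ^ 2 = ∑ g, (r2 T g : ℂ) * χ g := by
  unfold V r2
  rw [sq, sum_mul_sum, ← sum_product', ← sum_fiberwise (T ×ˢ T) (fun q => q.1 + q.2)]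
  apply sum_congr rfl
  intro g _
  rw [card_eq_sum_ones]
  push_cast
  rw [sum_mul]
  apply sum_congr rfl
  intro q hq
  rw [mem_filter] at hq
  rw [one_mul, ← hq.2, AddChar.map_add_eq_mul]

lemma V_im (T : Finset G) (hT : ∀ x ∈ T, -x ∈ T) (χ : AddChar G ℂ) : (V T χ).im = 0 := by
  rw [← Complex.conj_eq_iff_im]
  unfold V
  rw [map_sum]
  refine sum_bij (fun x _ => -x) hT (fun a _ b _ h => neg_injective h)
    (fun b hb => ⟨-b, hT b hb, neg_neg b⟩) ?_
  intro a _
  rw [AddChar.map_neg_eq_conj]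

lemma norm_sq_eq {z : ℂ} (h : z.im = 0) : ((‖z‖ ^ 2 : ℝ) : ℂ) = z ^ 2 := by
  have : z = (z.re : ℂ) := Complex.ext (by simp) (by simp [h])
  rw [this]
  push_cast
  rw [Complex.norm_real, ← Complex.ofReal_pow, ← Complex.ofReal_pow, Real.norm_eq_abs, sq_abs]

lemma r2_neg (T : Finset G) (hT : ∀ x ∈ T, -x ∈ T) (d : G) : r2 T (-d) = r2 T d := by
  unfold r2
  refine card_bij (fun q _ => -q) ?_ (fun a _ b _ h => neg_injective h) ?_
  · intro q hq
    simp only [mem_filter, mem_product] at hq ⊢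
    refine ⟨⟨hT _ hq.1.1, hT _ hq.1.2⟩, ?_⟩
    rw [Prod.fst_neg, Prod.snd_neg, ← neg_add, hq.2, neg_neg]
  · intro q hq
    simp only [mem_filter, mem_product] at hq
    refine ⟨-q, ?_, neg_neg q⟩
    simp only [mem_filter, mem_product]
    refine ⟨⟨hT _ hq.1.1, hT _ hq.1.2⟩, ?_⟩
    rw [Prod.fst_neg, Prod.snd_neg, ← neg_add, hq.2]

lemma r2_zero (T : Finset G) (hT : ∀ x ∈ T, -x ∈ T) : r2 T 0 = #T := by
  unfold r2
  symm
  refine card_bij (fun x _ => (x, -x)) ?_ (fun a _ b _ h => congrArg Prod.fst h) ?_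
  · intro x hx
    simp only [mem_filter, mem_product]
    exact ⟨⟨hx, hT x hx⟩, add_neg_cancel x⟩
  · rintro ⟨a, b⟩ hq
    simp only [mem_filter, mem_product] at hq
    refine ⟨a, hq.1.1, ?_⟩
    rw [Prod.mk.injEq]
    exact ⟨rfl, neg_eq_of_add_eq_zero_right hq.2⟩

/-- (SU) second and fourth moments. -/
theorem su : T_SU := by
  intro G _ _ T hT
  refine ⟨V_im T hT, ?_, ?_⟩
  · have h : ((∑ χ : AddChar G ℂ, ‖V T χ‖ ^ 2 : ℝ) : ℂ) = (((Fintype.card G : ℝ) * #T : ℝ) : ℂ) := by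
      rw [Complex.ofReal_sum]
      have h1 : ∀ χ : AddChar G ℂ, ((‖V T χ‖ ^ 2 : ℝ) : ℂ) = ∑ g, (r2 T g : ℂ) * χ g := fun χ => by
        rw [norm_sq_eq (V_im T hT χ), V_sq]
      simp_rw [h1]
      rw [sum_comm]
      simp_rw [← mul_sum, AddChar.sum_apply_eq_ite]
      simp only [mul_ite, mul_zero, sum_ite_eq', mem_univ, if_true]
      rw [r2_zero T hT]
      push_cast
      ring
    exact_mod_cast h
  · intro t
    have h : ((∑ χ : AddChar G ℂ, ‖V T χ‖ ^ 2 * ‖V T (t • χ)‖ ^ 2 : ℝ) : ℂ) =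
        (((Fintype.card G : ℝ) * ∑ g, (r2 T g : ℝ) * r2 T (t • g) : ℝ) : ℂ) := by
      rw [Complex.ofReal_sum]
      have h1 : ∀ χ : AddChar G ℂ, ((‖V T χ‖ ^ 2 * ‖V T (t • χ)‖ ^ 2 : ℝ) : ℂ) =
          ∑ g, ∑ h, ((r2 T g : ℂ) * r2 T h) * χ (g + t • h) := fun χ => by
        rw [Complex.ofReal_mul, norm_sq_eq (V_im T hT χ), norm_sq_eq (V_im T hT (t • χ)), V_sq, V_sq,
          sum_mul_sum]
        apply sum_congr rfl; intro g _
        apply sum_congr rfl; intro h _
        rw [AddChar.map_add_eq_mul, AddChar.map_nsmul_eq_pow, AddChar.nsmul_apply]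
        ring
      simp_rw [h1]
      rw [sum_comm]
      simp_rw [sum_comm (s := (univ : Finset (AddChar G ℂ)))]
      simp_rw [← mul_sum, AddChar.sum_apply_eq_ite]
      rw [sum_comm]
      push_cast
      rw [mul_sum]
      apply sum_congr rfl
      intro h _
      rw [sum_eq_single (-(t • h))]
      · rw [r2_neg T hT]
        simp only [neg_add_cancel, if_true]
        ring
      · intro g _ hg
        rw [if_neg, mul_zero]
        intro h0
        exact hg (eq_neg_of_add_eq_zero_left h0)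
      · intro h0
        exact absurd (mem_univ _) h0
    exact_mod_cast h

end

end Pool.Agent.H81.GW
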