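import Pool.Agent.H23.GW.Targets

/-!
# Perfect 3-spanning sets, module AR: arithmetic of `2 m + 1`
-/

set_option autoImplicit false

open Finset Pool.Agent.H23.GW

namespace Pool.Agent.H81.GW

/-- the exponents agree for `p ≥ 7` -/
lemma fact_eq {m N p : ℕ} (h : 3 * N = (2 * m + 1) * (2 * m ^ 2 + 2 * m + 3)) (hp : p.Prime) (hp7 : 7 ≤ p)
    (hd : p ∣ 2 * m + 1) : p ∣ N ∧ N.factorization p = (2 * m + 1).factorization p := by
  have hS : ¬ p ∣ 2 * m ^ 2 + 2 * m + 3 := by
    intro hS
    have h1 : p ∣ 2 * (2 * m ^ 2 + 2 * m + 3) := hS.mul_left 2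
    have h2 : 2 * (2 * m ^ 2 + 2 * m + 3) = (2 * m + 1) * (2 * m + 1) + 5 := by ring
    rw [h2] at h1
    have h3 : p ∣ 5 := (Nat.dvd_add_right (hd.mul_right _)).1 h1
    have := Nat.le_of_dvd (by norm_num) h3
    omega
  have h3p : ¬ p ∣ 3 := fun h3 => by have := Nat.le_of_dvd (by norm_num) h3; omega
  have hN : p ∣ N := by
    have : p ∣ 3 * N := by rw [h]; exact hd.mul_right _
    exact (hp.dvd_mul.1 this).resolve_left h3p
  have hN0 : N ≠ 0 := by
    rintro rfl
    have : 0 < (2 * m + 1) * (2 * m ^ 2 + 2 * m + 3) := by positivity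
    omega
  refine ⟨hN, ?_⟩
  have h4 : (3 * N).factorization p = ((2 * m + 1) * (2 * m ^ 2 + 2 * m + 3)).factorization p := by rw [h]
  rw [Nat.factorization_mul (by norm_num) hN0, Nat.factorization_mul (by omega) (by omega),
    Finsupp.add_apply, Finsupp.add_apply, Nat.factorization_eq_zero_of_not_dvd h3p,
    Nat.factorization_eq_zero_of_not_dvd hS] at h4
  omega

lemma fact_pow {M p k u : ℕ} (hp : p.Prime) (h : M = p ^ k * u) (hu : ¬ p ∣ u) : M.factorization p = k := by
  have hu0 : u ≠ 0 := by rintro rfl; simp at hu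
  rw [h, Nat.factorization_mul (pow_ne_zero _ hp.ne_zero) hu0, Finsupp.add_apply,
    Nat.factorization_eq_zero_of_not_dvd hu, hp.factorization_pow]
  simp only [Finsupp.single_eq_same, add_zero]

/-- (AR) arithmetic of `2 m + 1`. -/
theorem ar : T_AR := by
  refine ⟨30, fun m N hm h h3 hq => ?_⟩
  have h9 : ¬ 9 ∣ 2 * m + 1 := by
    rintro ⟨t, ht⟩
    apply h3
    rw [ht] at h
    exact ⟨t * (2 * m ^ 2 + 2 * m + 3), by nlinarith⟩
  by_cases hA : ∃ p, p.Prime ∧ 11 ≤ p ∧ p ∣ 2 * m + 1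
  · obtain ⟨p, hp, hp11, hd⟩ := hA
    obtain ⟨hN, hf⟩ := fact_eq h hp (by omega) hd
    obtain ⟨k, u, hu, hM⟩ := Nat.exists_eq_pow_mul_and_not_dvd (show 2 * m + 1 ≠ 0 by omega) p hp.ne_one
    have hk := fact_pow hp hM hu
    have h1 := hq p hp hN (Or.inl hp11)
    rw [hf, hk] at h1
    have hu0 : 0 < u := by
      rcases Nat.eq_zero_or_pos u with rfl | h0
      · simp at hM
      · exact h0
    obtain ⟨t, rfl⟩ : ∃ t, p = t + 5 := ⟨p - 5, by omega⟩
    rw [Nat.add_sub_cancel] at h1
    have h2 : u * (2 * t * m) < 25 * (2 * m + 1) := by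
      calc u * (2 * t * m) < u * (25 * (t + 5) ^ k) := Nat.mul_lt_mul_of_pos_left h1 hu0
        _ = 25 * ((t + 5) ^ k * u) := by ring
        _ = 25 * (2 * m + 1) := by rw [← hM]
    have hu5 : u < 5 := by
      by_contra hc
      push Not at hc
      have h4 : 5 * (12 * m) ≤ u * (2 * t * m) := by
        apply Nat.mul_le_mul hc
        apply Nat.mul_le_mul_right
        omega
      omega
    have hodd : u ≠ 2 ∧ u ≠ 4 := by
      constructor
      · rintro rfl; omega
      · rintro rfl; omega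
    have ht : t < 26 := by
      by_contra hc
      push Not at hc
      have h4 : 1 * (52 * m) ≤ u * (2 * t * m) := by
        apply Nat.mul_le_mul hu0
        apply Nat.mul_le_mul_right
        omega
      omega
    have ht2 : t ≠ 25 := by
      rintro rfl
      norm_num at hp
    refine ⟨u, t + 5, k, by omega, hp, by omega, by omega, by rw [hM, mul_comm]⟩
  · push Not at hA
    obtain ⟨a, M1, h5, hM1⟩ := Nat.exists_eq_pow_mul_and_not_dvd (show 2 * m + 1 ≠ 0 by omega) 5 (by norm_num)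
    have hM10 : M1 ≠ 0 := by rintro rfl; simp at h5
    obtain ⟨b, M2, h7, hM2⟩ := Nat.exists_eq_pow_mul_and_not_dvd hM10 7 (by norm_num)
    have hM20 : M2 ≠ 0 := by rintro rfl; simp at h7
    obtain ⟨c, M3, h33, hM3⟩ := Nat.exists_eq_pow_mul_and_not_dvd hM20 3 (by norm_num)
    have hd32 : M3 ∣ M2 := ⟨3 ^ c, by rw [hM3, mul_comm]⟩
    have hd21 : M2 ∣ M1 := ⟨7 ^ b, by rw [hM2, mul_comm]⟩
    have hd1 : M1 ∣ 2 * m + 1 := ⟨5 ^ a, by rw [hM1, mul_comm]⟩
    have hM31 : M3 = 1 := by
      by_contra hne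
      obtain ⟨p, hp, hpd⟩ := Nat.exists_prime_and_dvd hne
      have hpM : p ∣ 2 * m + 1 := hpd.trans (hd32.trans (hd21.trans hd1))
      have hlt : p < 11 := by
        by_contra hc
        exact hA p hp (by omega) hpM
      interval_cases p
      · exact absurd hp (by norm_num)
      · exact absurd hp (by norm_num)
      · omega
      · exact h33 hpd
      · exact absurd hp (by norm_num)
      · exact h5 (hpd.trans (hd32.trans hd21))
      · exact absurd hp (by norm_num)
      · exact h7 (hpd.trans hd32)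
      · exact absurd hp (by norm_num)
      · exact absurd hp (by norm_num)
      · exact absurd hp (by norm_num)
    rw [hM31, mul_one] at hM3
    have hM : 2 * m + 1 = 5 ^ a * (7 ^ b * 3 ^ c) := by rw [hM1, hM2, hM3]
    have hc : c ≤ 1 := by
      by_contra hc
      apply h9
      obtain ⟨c', rfl⟩ : ∃ c', c = c' + 2 := ⟨c - 2, by omega⟩
      exact ⟨5 ^ a * (7 ^ b * 3 ^ c'), by rw [hM]; ring⟩
    by_cases hb : 2 ≤ b
    · have hd7 : 7 ∣ 2 * m + 1 := by
        obtain ⟨b', rfl⟩ : ∃ b', b = b' + 1 := ⟨b - 1, by omega⟩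
        exact ⟨5 ^ a * (7 ^ b' * 3 ^ c), by rw [hM]; ring⟩
      have hd49 : 49 ∣ 2 * m + 1 := by
        obtain ⟨b', rfl⟩ : ∃ b', b = b' + 2 := ⟨b - 2, by omega⟩
        exact ⟨5 ^ a * (7 ^ b' * 3 ^ c), by rw [hM]; ring⟩
      obtain ⟨hN, hf⟩ := fact_eq h (by norm_num) (le_refl 7) hd7
      have hN49 : 49 ∣ N := by
        have : 49 ∣ 3 * N := by rw [h]; exact hd49.mul_right _
        exact (Nat.Coprime.dvd_mul_left (by norm_num)).1 this
      have hk : (2 * m + 1).factorization 7 = b := by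
        refine fact_pow (u := 5 ^ a * 3 ^ c) (by norm_num) (by rw [hM]; ring) ?_
        intro h7'
        rcases (Nat.Prime.dvd_mul (by norm_num)).1 h7' with h' | h'
        · have := Nat.Prime.dvd_of_dvd_pow (by norm_num) h'
          omega
        · have := Nat.Prime.dvd_of_dvd_pow (by norm_num) h'
          omega
      have h1 := hq 7 (by norm_num) hN (Or.inr ⟨rfl, hN49⟩)
      rw [hf, hk] at h1
      norm_num at h1
      have hu0 : 0 < 5 ^ a * 3 ^ c := by positivity
      have h2 : (5 ^ a * 3 ^ c) * (4 * m) < 25 * (2 * m + 1) := by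
        calc (5 ^ a * 3 ^ c) * (4 * m) < (5 ^ a * 3 ^ c) * (25 * 7 ^ b) := Nat.mul_lt_mul_of_pos_left h1 hu0
          _ = 25 * (5 ^ a * (7 ^ b * 3 ^ c)) := by ring
          _ = 25 * (2 * m + 1) := by rw [← hM]
      have hu13 : 5 ^ a * 3 ^ c < 13 := by
        by_contra hcc
        push Not at hcc
        have : 13 * (4 * m) ≤ (5 ^ a * 3 ^ c) * (4 * m) := Nat.mul_le_mul_right _ hcc
        omega
      have ha : a ≤ 1 := by
        by_contra hcc
        have h25 : 5 ^ 2 ≤ 5 ^ a := Nat.pow_le_pow_right (by norm_num) (by omega)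
        have : 1 ≤ 3 ^ c := Nat.one_le_pow _ _ (by norm_num)
        nlinarith
      refine ⟨5 ^ a * 3 ^ c, 7, b, ?_, by norm_num, by norm_num, by norm_num, by rw [hM]; ring⟩
      interval_cases a <;> interval_cases c <;> first | (exfalso; revert hu13; norm_num; done) | simp
    · refine ⟨7 ^ b * 3 ^ c, 5, a, ?_, by norm_num, by norm_num, by norm_num, by rw [hM]; ring⟩
      have hb1 : b ≤ 1 := by omega
      interval_cases b <;> interval_cases c <;> simp

end Pool.Agent.H81.GW
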